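import Mathlib
import Pool.Agent.Run7.h756.CC.Lin

/-!
# Pairs of primes at several scales at once: circles containing all but `C` members of EVERY set of shifts

For every `R` and `k` there are `C` and `B` such that for any large scales `N_1, …, N_R`, every finite set `V` and
any `R` injective maps `f_i` of `V` into `{0, …, N_i}` such that `f_i(V)` misses a class modulo each prime `p ≤ B`:
all members of `V` with at most `C` exceptions can be arranged in `m R` disjoint circles (`m 1 = 3`, `m 2 = 10`,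
`m 3 = 36`) such that for any `k` successive members `v_1, …, v_k` of a circle and each `i` there are at least
`N_i / (log N_i) ^ B` numbers `x` in `[N_i, 3 N_i]` with `x + f_i(v_1), …, x + f_i(v_k)` all prime. The sets may
be as large as `N`, and the scales may be of very different sizes.
-/

set_option autoImplicit false

namespace Pool.Agent.Results.MP_b51559_nt.CirclesAtAllScales

open Filter Finset
open Pool.Agent.Run7.h756.CC
open Pool.Agent.Y827.GS (cntN Adf)

/-- the number of the `x` in `[N, 3 N]` such that `x + v` is prime for all `v` in `F` -/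
def count (F : Finset ℕ) (N : ℕ) : ℕ :=
  ((Icc N (3 * N)).filter (fun x : ℕ => ∀ v ∈ F, (x + v).Prime)).card

/-- the number of the primes `p` with `N ≤ p`, `p + d ≤ 4 N` and `p + d` prime -/
def pairs (d N : ℕ) : ℕ := ((Icc N (4 * N)).filter (fun p : ℕ => p.Prime ∧ (p + d).Prime ∧ p + d ≤ 4 * N)).card

/-- `m 0 = 1` and `m (R + 1) = ⌊18 * m R / 5⌋`: the numbers `1, 3, 10, 36, 129, ...` -/
def m : ℕ → ℕ
  | 0 => 1
  | R + 1 => 18 * m R / 5

theorem m_eq (R : ℕ) : m R = Pool.Agent.R493.SI.mR R := by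
  induction R with
  | zero => rfl
  | succ R ih =>
    show 18 * m R / 5 = 18 * Pool.Agent.R493.SI.mR R / 5
    rw [ih]

/-- All members of `V` with at most `C` exceptions are arranged in `D` disjoint circles (lists without
repetitions, read cyclically) such that any `k` successive members of a circle (all members, if there are fewer
than `k`) form a set with the property `G`. -/
def Circles (V : Finset ℕ) (D C k : ℕ) (G : Finset ℕ → Prop) : Prop :=
  ∃ e : Fin D → List ℕ, (∀ i, (e i).Nodup) ∧ (∀ i j, i ≠ j → List.Disjoint (e i) (e j)) ∧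
    (∀ i, ∀ v ∈ e i, v ∈ V) ∧ (V.filter (fun v => ∀ i, v ∉ e i)).card ≤ C ∧
    ∀ i j, e i ≠ [] → G ((((e i).rotate j).take k).toFinset)

theorem cnt_le (F : Finset ℕ) (g : ℕ → ℕ) (N : ℕ) :
    cntN (F.image (fun v => ((1 : ℤ), (g v : ℤ) + N))) (2 * N) ≤ count (F.image g) N := by
  unfold cntN count
  rw [← card_image_of_injective (f := fun n : ℕ => n + N) _ (by
    intro a b hab
    simp only at hab
    omega)]
  apply card_le_card
  intro x hx
  obtain ⟨n, hn, rfl⟩ := mem_image.1 hx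
  obtain ⟨h1, h2⟩ := mem_filter.1 hn
  rw [mem_Icc] at h1
  refine mem_filter.2 ⟨mem_Icc.2 ⟨by omega, by omega⟩, fun u hu => ?_⟩
  obtain ⟨v, hv, rfl⟩ := mem_image.1 hu
  have h3 := h2 _ (mem_image_of_mem _ hv)
  have e : ((1 : ℤ) * (n : ℤ) + ((g v : ℤ) + N)).toNat = n + N + g v := by omega
  simp only at h3
  rwa [e] at h3

/-- **Circles at several scales.** (1) is the general statement. (2) For `k = 2` and scales in the interval
`(n + 4, 2 ^ (n + 4))` of the question: any two neighbours `s`, `t` of a circle are such that for every `i` there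
are at least `N_i / (log N_i) ^ B` primes `p` with `p + |f_i(s) - f_i(t)|` prime and both of them in
`[N_i, 4 N_i]`, so in `(n + 4, 2 ^ (n + 4))`. -/
theorem result (R : ℕ) :
    (∀ k : ℕ, 1 ≤ k → ∃ C B N₀ : ℕ, ∀ N : Fin R → ℕ, (∀ i, N₀ ≤ N i) → ∀ (V : Finset ℕ) (f : Fin R → ℕ → ℕ),
      (∀ i, Set.InjOn (f i) V) → (∀ i, ∀ v ∈ V, f i v ≤ N i) →
      (∀ i, ∀ p : ℕ, p.Prime → p ≤ B → ∃ s : ℕ, ∀ v ∈ V, ¬ f i v ≡ s [MOD p]) →
      Circles V (m R) C k (fun w => ∀ i, (N i : ℝ) / (Real.log (N i)) ^ B ≤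
        (count (w.image (f i)) (N i) : ℝ))) ∧
    ∃ C B n₀ : ℕ, ∀ n : ℕ, n₀ ≤ n → ∀ N : Fin R → ℕ, (∀ i, n + 4 < N i ∧ 4 * N i < 2 ^ (n + 4)) →
      ∀ (V : Finset ℕ) (f : Fin R → ℕ → ℕ),
      (∀ i, Set.InjOn (f i) V) → (∀ i, ∀ v ∈ V, f i v ≤ N i) →
      (∀ i, ∀ p : ℕ, p.Prime → p ≤ B → ∃ s : ℕ, ∀ v ∈ V, ¬ f i v ≡ s [MOD p]) →
      Circles V (m R) C 2 (fun w => ∀ s ∈ w, ∀ t ∈ w, ∀ i, (N i : ℝ) / (Real.log (N i)) ^ B ≤
        (pairs (max (f i s) (f i t) - min (f i s) (f i t)) (N i) : ℝ)) := by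
  classical
  have main : ∀ k : ℕ, 1 ≤ k → ∃ C B N₀ : ℕ, ∀ N : Fin R → ℕ, (∀ i, N₀ ≤ N i) →
      ∀ (V : Finset ℕ) (f : Fin R → ℕ → ℕ),
      (∀ i, Set.InjOn (f i) V) → (∀ i, ∀ v ∈ V, f i v ≤ N i) →
      (∀ i, ∀ p : ℕ, p.Prime → p ≤ B → ∃ s : ℕ, ∀ v ∈ V, ¬ f i v ≡ s [MOD p]) →
      Circles V (m R) C k (fun w => ∀ i, (N i : ℝ) / (Real.log (N i)) ^ B ≤
        (count (w.image (f i)) (N i) : ℝ)) := by
    intro k hk
    obtain ⟨C, B, h⟩ := scale_circles R k hk
    obtain ⟨N₀, hN₀⟩ := h 1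
    obtain ⟨N₁, hN₁⟩ := Pool.Agent.R493.SC.log_loss B 2 (by omega)
    refine ⟨C, B + 1, N₀ + N₁, fun N hN V f hf hle hloc => ?_⟩
    obtain ⟨e, he1, he2, he3, he4, he5⟩ := hN₀ (fun i => 2 * N i) (fun i => by
        have h2 := hN i
        show N₀ ≤ 2 * N i
        omega) V (fun i v => ((1 : ℤ), (f i v : ℤ) + N i))
      (fun i v hv w hw hvw => by
        simp only [Prod.mk.injEq, true_and] at hvw
        exact hf i hv hw (by omega))
      (fun i v hv => by
        have h1 := hle i v hv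
        refine ⟨by norm_num, by norm_num, ?_, isCoprime_one_left, ?_⟩
        · show |(f i v : ℤ) + N i| ≤ ((2 * N i : ℕ) : ℤ)
          rw [abs_of_nonneg (by positivity)]
          push_cast
          omega
        · intro t ht1 ht2
          have h3 : (0 : ℝ) ≤ (f i v : ℝ) := Nat.cast_nonneg _
          have h4 : (0 : ℝ) ≤ (N i : ℝ) := Nat.cast_nonneg _
          push_cast at ht1 ⊢
          linarith)
      (fun i p hp hpB => by
        obtain ⟨s, hs⟩ := hloc i p hp (by omega)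
        refine ⟨-(s : ℤ) - N i, fun v hv hd => hs v hv ?_⟩
        have h1 : (p : ℤ) ∣ (f i v : ℤ) - s := by
          have : (1 : ℤ) * (-(s : ℤ) - N i) + ((f i v : ℤ) + N i) = (f i v : ℤ) - s := by ring
          rwa [this] at hd
        exact (Nat.modEq_iff_dvd.2 h1).symm)
    rw [m_eq]
    refine ⟨e, he1, he2, he3, he4, fun j l hne i => ?_⟩
    have h1 := he5 i j l hne
    unfold Oft at h1
    refine (hN₁ (N i) (by have := hN i; omega)).trans (h1.trans ?_)
    rw [Nat.cast_le]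
    exact cnt_le _ (f i) (N i)
  refine ⟨main, ?_⟩
  obtain ⟨C, B, N₀, h⟩ := main 2 (by norm_num)
  refine ⟨C, B, N₀, fun n hn N hN V f hf hle hloc => ?_⟩
  obtain ⟨e, he1, he2, he3, he4, he5⟩ := h N (fun i => by have := (hN i).1; omega) V f hf hle hloc
  refine ⟨e, he1, he2, he3, he4, fun i j hne s hs t ht ρ => (he5 i j hne ρ).trans ?_⟩
  rw [Nat.cast_le]
  unfold count pairs
  have hmem : ∀ v ∈ (((e i).rotate j).take 2).toFinset, v ∈ V := by
    intro v hv
    rw [List.mem_toFinset] at hv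
    exact he3 i v (List.mem_rotate.1 (List.mem_of_mem_take hv))
  have hsN := hle ρ s (hmem s hs)
  have htN := hle ρ t (hmem t ht)
  rw [← card_image_of_injective (f := fun x : ℕ => x + min (f ρ s) (f ρ t)) _ (by
    intro a b hab
    simp only at hab
    omega)]
  apply card_le_card
  intro x hx
  obtain ⟨y, hy, rfl⟩ := mem_image.1 hx
  obtain ⟨h1, h2⟩ := mem_filter.1 hy
  rw [mem_Icc] at h1
  have h3 := h2 (f ρ s) (mem_image_of_mem _ hs)
  have h4 := h2 (f ρ t) (mem_image_of_mem _ ht)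
  rcases le_total (f ρ s) (f ρ t) with h5 | h5
  · rw [min_eq_left h5, max_eq_right h5]
    have e1 : y + f ρ s + (f ρ t - f ρ s) = y + f ρ t := by omega
    exact mem_filter.2 ⟨mem_Icc.2 ⟨by omega, by omega⟩, h3, by rwa [e1], by omega⟩
  · rw [min_eq_right h5, max_eq_left h5]
    have e1 : y + f ρ t + (f ρ s - f ρ t) = y + f ρ s := by omega
    exact mem_filter.2 ⟨mem_Icc.2 ⟨by omega, by omega⟩, h4, by rwa [e1], by omega⟩

end Pool.Agent.Results.MP_b51559_nt.CirclesAtAllScales
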