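import Pool.Agent.Run7.h524.MG.Prs2
import Pool.Agent.Run7.h931.MK.Fin
import Pool.Agent.N384.MQ.Quot

/-!
# The number of the primes `p + d`, `d` from a random short list of differences, has a Poisson law over the primes `p`

Project MK of this run (primes in intervals of length `N ^ (1/3) log ^ C N` with additive characters). New: the mixed Poisson
law where the integers `n` run over the primes (a set of logarithmic density), by the inequality of bounded differences and an
upper bound sieve for the pairs of primes.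

From Mathlib: `ZMod.stdAddChar`: the additive character `j ↦ exp (2 π i j / q)` of the integers modulo `q`; `ZMod.val`: the
least residue.
-/

set_option autoImplicit false

namespace Pool.Agent.Results.MP_b51559_nt.PoissonLawPrimePairs

open Finset

/-- The Fourier coefficients of the residues `y i`, `i ∈ s`, modulo `q` at the nonzero frequencies are at most
`η` times the number of the residues: `|∑ i ∈ s, e(h y_i / q)| ≤ η |s|` for all `h ≠ 0` modulo `q`. -/
def Flat {ι : Type} (q : ℕ) [NeZero q] (η : ℝ) (s : Finset ι) (y : ι → ZMod q) : Prop :=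
  ∀ h : ZMod q, h ≠ 0 → ‖∑ i ∈ s, (ZMod.stdAddChar (h * y i) : ℂ)‖ ≤ η * s.card

/-- The number of the `l ≤ m` for which `(p, p + d_l)`, `d_l = c + κ y_(ω l)`, is a pair of primes (for a prime `p`), where
`ω` is a choice of `m` elements of `s` (with the least residues `0 ≤ y_i < q`). -/
def pairs {ι : Type} {q : ℕ} (s : Finset ι) (y : ι → ZMod q) (κ c m : ℕ) (ω : Fin m → s) (p : ℕ) : ℕ :=
  ((univ : Finset (Fin m)).filter (fun l => (p + (c + κ * (y (ω l)).val)).Prime)).card

/-- The expected density of the primes: `(κ / φ(κ)) / log (p + c)`. -/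
noncomputable def density (κ c p : ℕ) : ℝ := κ / (Nat.totient κ : ℝ) / Real.log ((p + c : ℕ) : ℝ)

/-- The Poisson probabilities. -/
noncomputable def poisson (lam : ℝ) (j : ℕ) : ℝ := Real.exp (-lam) * lam ^ j / j.factorial

open Classical in
/-- **(1)** Let `B ≥ 1` and `Λ, ε > 0`. There are `V`, `C`, `M₀` such that the following holds for all large `N`, all `q` with
`N ^ (1 / 3) log ^ C N ≤ q ≤ N / log ^ C N`, all finite families of residues `y i`, `i ∈ s`, modulo `q` whose Fourier
coefficients at the nonzero frequencies are at most `|s| / log ^ V q`, all `1 ≤ κ ≤ B` and `1 ≤ c ≤ B N`, all sets `J` of at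
least `N / (B log N)` primes `p ≤ N` with `p + c` coprime to `κ`, and all `m` with `M₀ ≤ m ≤ Λ log N`: for all the choices `ω`
of `m` elements of `s` with at most `exp (-√(log N)) |s| ^ m` exceptions, for all `j ≥ 0` simultaneously: the number of the
primes `p ∈ J` for which exactly `j` of the `m` integers `p + d_l`, `d_l = c + κ y_(ω l)`, are primes differs by at most
`ε |J|` from the sum over `p ∈ J` of the Poisson probabilities `exp (- λ_p) λ_p ^ j / j!`,
`λ_p = m (κ / φ(κ)) / log (p + c)`.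

**(2)** An example of such families with only a power of `log N` members: the quotients `j / r` modulo a prime `p` of the
integers `0 ≤ j < S` by the primes `r ≤ R`, `log ^ (V + 4) p ≤ R < p`, `R ^ 2 ≤ S`. -/
theorem result :
    (∀ (B : ℕ) (Λ ε : ℝ), 1 ≤ B → 0 < Λ → 0 < ε → ∃ V C M₀ N₀ : ℕ, ∀ N : ℕ, N₀ ≤ N →
      ∀ (q : ℕ) [NeZero q], (N : ℝ) ^ (1 / 3 : ℝ) * Real.log N ^ C ≤ q → (q : ℝ) * Real.log N ^ C ≤ N →
      ∀ {ι : Type} (s : Finset ι) (y : ι → ZMod q), s.Nonempty → Flat q (1 / Real.log q ^ V) s y →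
      ∀ κ c : ℕ, 1 ≤ κ → κ ≤ B → 1 ≤ c → c ≤ B * N →
      ∀ J : Finset ℕ, J ⊆ (Icc 1 N).filter Nat.Prime → (N : ℝ) ≤ B * Real.log N * J.card → (∀ p ∈ J, (p + c).Coprime κ) →
      ∀ m : ℕ, M₀ ≤ m → (m : ℝ) ≤ Λ * Real.log N →
      (((univ : Finset (Fin m → s)).filter fun ω => ¬ ∀ j : ℕ,
        |((J.filter fun p => pairs s y κ c m ω p = j).card : ℝ) - ∑ p ∈ J, poisson (m * density κ c p) j| ≤
          ε * J.card).card : ℝ) ≤ Real.exp (-√(Real.log N)) * (s.card : ℝ) ^ m) ∧
    (∀ V : ℕ, ∃ P₀ : ℕ, ∀ p : ℕ, P₀ ≤ p → ∀ [Fact p.Prime], ∀ R S : ℕ, Real.log p ^ (V + 4) ≤ R → R < p → R ^ 2 ≤ S →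
      Flat p (1 / Real.log p ^ V) (((Icc 1 R).filter Nat.Prime) ×ˢ range S)
        (fun z => ((z.2 : ℕ) : ZMod p) * ((z.1 : ℕ) : ZMod p)⁻¹)) := by
  refine ⟨fun B Λ ε hB hΛ hε => ?_, fun V => ?_⟩
  · obtain ⟨V, C, M₀, N₀, h⟩ := Pool.Agent.Run7.h524.MG.pois_pairs Pool.Agent.Run7.h931.MK.t31 B hB Λ hΛ ε hε
    obtain ⟨N₁, h1⟩ := Pool.Agent.Run7.h524.MG.flat_log V
    refine ⟨V + 1, C, M₀, N₀ + N₁, fun N hN q _ hq1 hq2 ι s y hs hf κ c hκ hκB hc1 hc J hJ hJB hcop m hm1 hm2 => ?_⟩
    have h2 := h N (by omega) q hq1 hq2 s y hs (h1 N (by omega) q C hq1 s y hf) κ c hκ hκB hc1 hc J hJ hJB hcop m hm1 hm2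
    refine le_trans (Nat.cast_le.2 (card_le_card fun ω hω => ?_)) h2
    rw [mem_filter] at hω ⊢
    refine ⟨hω.1, fun h3 => hω.2 fun j => ?_⟩
    have h4 := h3 j
    unfold Pool.Agent.Run7.h524.MG.pw Pool.Agent.Run7.h524.MG.rr at h4
    unfold pairs density poisson
    simp only [← add_assoc]
    convert h4
  · exact Pool.Agent.N384.MQ.flat_quot V

end Pool.Agent.Results.MP_b51559_nt.PoissonLawPrimePairs
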