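import Pool.Agent.Run7.h90.AU.ShiftD

set_option autoImplicit false

/-!
# Twin pairs in the intervals `(n + 4, 2 ^ (n + 4))` and at the members of thin families of residues modulo a prime

Let `p` be a large prime and let `(v_i)`, `i ∈ s`, be a family of residues modulo `p` whose exponential sums
`∑ e(ξ v_i / p)`, `ξ ≠ 0`, are at most `p ^ (-ε) |s|`; the family may be very thin. Examples: the values of a sparse
polynomial of arbitrary degree on a subgroup of order `p ^ η`, the values `c_1 g_1 ^ n + ... + c_k g_k ^ n`, `n < N`,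
`N ≥ p ^ η`. The theorem is about the integers `n` congruent to a member of the family modulo `p` in an interval of length
`L ≥ p ^ (1 - δ)`. The pairs
`q, q + 2` of numbers without prime factors up to `z` with `n + 4 < q < 2 ^ (n + 4)` have the frequency predicted by
Hardy and Littlewood for primes, and pairs of products of a bounded number of primes have the right order, whenever
`2 ^ (n + 4) - (n + 5) ≥ p ^ (1 - δ)`.

Proof: bound of Bourgain, Glibichuk and Konyagin in the form for recurrences and monomials (`Agent/Run7/h823/BK9`);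
equidistribution in the residue classes modulo all integers up to `p ^ δ` and the fundamental lemma of the sieve
(`Agent/Run7/h90/AU`).
-/

namespace Pool.Agent.Results.MP_b51559_nt.TwinPairsInSparseFamilies

open Finset Filter Topology
open Pool.Agent.Run7.h90.AU (Formula Orders pairSeries SparseSmall RecurrencesSmall number Rough Almost SmallSums)

/-- The numbers `q`, `q + 2` have the property `P`. -/
def Twin (P : ℕ → Prop) (q : ℕ) : Prop := P q ∧ P (q + 2)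

/-- The number of the pairs `(i, q)` with `q ≡ v i` modulo `p`, `n + 4 < q < 2 ^ (n + 4)`, and `q`, `q + 2` with the
property `P`. -/
noncomputable def twins (n p : ℕ) {ι : Type} (s : Finset ι) (v : ι → ZMod p) (P : ℕ → Prop) : ℕ := by
  classical
  exact ((s ×ˢ Ioo (n + 4) (2 ^ (n + 4))).filter fun x => ((x.2 : ℕ) : ZMod p) = v x.1 ∧ Twin P x.2).card

theorem twins_eq (n p : ℕ) {ι : Type} (s : Finset ι) (v : ι → ZMod p) (P : ℕ → Prop) :
    twins n p s v P = number p s v (n + 4) (2 ^ (n + 4) - (n + 5)) (Twin P) := by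
  classical
  have h1 : n + 4 < 2 ^ (n + 4) := Nat.lt_two_pow_self
  unfold twins number
  apply congrArg
  ext x
  simp only [mem_filter, mem_product, mem_Ioo, mem_Ioc]
  constructor
  · rintro ⟨⟨h1, h2, h3⟩, h4, h5⟩
    exact ⟨⟨h1, h2, by omega⟩, h4, h5⟩
  · rintro ⟨⟨h1, h2, h3⟩, h4, h5⟩
    exact ⟨⟨h1, h2, by omega⟩, h4, h5⟩

theorem pat_eq : Pool.Agent.Run7.h90.AU.Shifts {0, 2} = Twin := by
  funext P n
  unfold Pool.Agent.Run7.h90.AU.Shifts Twin
  simp only [mem_insert, mem_singleton, forall_eq_or_imp, forall_eq, add_zero]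

/-- The partial products, over the primes `3 ≤ q ≤ z`, of `2 C₂`. -/
noncomputable def partialConstant (z : ℕ) : ℝ := 2 * ∏ q ∈ (Icc 3 z).filter Nat.Prime, (1 - 1 / ((q : ℝ) - 1) ^ 2)

theorem const_eq : pairSeries 2 = partialConstant := by
  funext z
  unfold Pool.Agent.Run7.h90.AU.pairSeries partialConstant
  have e : (2 : ℕ).primeFactors.filter (fun q => 3 ≤ q) = ∅ := by
    rw [Nat.Prime.primeFactors Nat.prime_two]
    rfl
  rw [e, prod_empty, mul_one]

theorem result : ∃ D : ℝ, 0 < D ∧ Tendsto partialConstant atTop (𝓝 D) ∧ Formula 2 Twin D ∧ Orders 2 Twin ∧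
    (∀ ε : ℝ, 0 < ε → ∃ δ : ℝ, 0 < δ ∧ ∀ b : ℕ, 1 ≤ b → ∃ P₀ : ℝ, ∀ (p : ℕ) [Fact p.Prime], P₀ ≤ p →
      ∀ (ι : Type) (s : Finset ι) (v : ι → ZMod p), SmallSums p ε s v →
      ∀ n z : ℕ, (p : ℝ) ^ (1 - δ) ≤ ((2 ^ (n + 4) - (n + 5) : ℕ) : ℝ) → Real.log p ≤ z →
      (z : ℝ) ≤ (p : ℝ) ^ (δ / b) →
      |(twins n p s v (Rough z) : ℝ) - Real.exp (-(2 * Real.eulerMascheroniConstant)) *
          (D * (s.card * (((2 ^ (n + 4) - (n + 5) : ℕ) : ℝ) / p)) / Real.log z ^ 2)| ≤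
      (1 / 2) ^ b * (Real.exp (-(2 * Real.eulerMascheroniConstant)) *
          (D * (s.card * (((2 ^ (n + 4) - (n + 5) : ℕ) : ℝ) / p)) / Real.log z ^ 2))) ∧
    (∀ ε A : ℝ, 0 < ε → 1 ≤ A → ∃ (r : ℕ) (δ K : ℝ), 0 < δ ∧ 0 < K ∧ ∃ P₀ : ℝ,
      ∀ (p : ℕ) [Fact p.Prime], P₀ ≤ p →
      ∀ (ι : Type) (s : Finset ι) (v : ι → ZMod p), SmallSums p ε s v →
      ∀ n : ℕ, ((2 ^ (n + 4) : ℕ) : ℝ) ≤ (p : ℝ) ^ A → (p : ℝ) ^ (1 - δ) ≤ ((2 ^ (n + 4) - (n + 5) : ℕ) : ℝ) →
      s.card * (((2 ^ (n + 4) - (n + 5) : ℕ) : ℝ) / p) / Real.log p ^ 2 ≤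
        K * (twins n p s v (Almost r ((p : ℝ) ^ δ)) : ℝ) ∧
      (twins n p s v Nat.Prime : ℝ) ≤ K * (s.card * (((2 ^ (n + 4) - (n + 5) : ℕ) : ℝ) / p) / Real.log p ^ 2)) ∧
    SparseSmall ∧ RecurrencesSmall := by
  obtain ⟨D, hD, hl, F, O⟩ := Pool.Agent.Run7.h90.AU.shifts_all
    (Pool.Agent.Run7.h90.AU.adm_pair (show 0 < 2 by norm_num) (by norm_num))
  rw [pat_eq] at F O
  refine ⟨D, hD, ?_, F, O, ?_, ?_, Pool.Agent.Run7.h90.AU.sparse_small, Pool.Agent.Run7.h90.AU.rec_small⟩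
  · rw [← const_eq]
    exact hl.congr' (Pool.Agent.Run7.h90.AU.pairSeries_eq (by norm_num) (by norm_num))
  · intro ε hε
    obtain ⟨δ, hδ, H⟩ := F ε hε
    refine ⟨δ, hδ, fun b hb => ?_⟩
    obtain ⟨P₀, H⟩ := H b hb
    refine ⟨P₀, ?_⟩
    intro p hp hpP ι s v hv n z hL hz1 hz2
    rw [twins_eq]
    exact_mod_cast H p hpP ι s v hv (n + 4) (2 ^ (n + 4) - (n + 5)) z hL hz1 hz2
  · intro ε A hε hA
    obtain ⟨r, δ, K, hδ, hK, P₀, H⟩ := O ε A hε hA
    refine ⟨r, δ, K, hδ, hK, P₀, ?_⟩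
    intro p hp hpP ι s v hv n hM hL
    rw [twins_eq, twins_eq]
    have h1 : n + 4 < 2 ^ (n + 4) := Nat.lt_two_pow_self
    refine H p hpP ι s v hv (n + 4) (2 ^ (n + 4) - (n + 5)) ?_ hL
    refine le_trans ?_ hM
    have h2 : n + 4 + (2 ^ (n + 4) - (n + 5)) ≤ 2 ^ (n + 4) := by omega
    exact_mod_cast h2

end Pool.Agent.Results.MP_b51559_nt.TwinPairsInSparseFamilies
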